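import Mathlib

/-! Integer valued functions on a grading group, as a module over the group ring. -/

namespace Pool.Agent.EGH

open Filter

set_option linter.unusedSectionVars false

abbrev RG (G : Type) [AddCommGroup G] : Type := AddMonoidAlgebra ℤ G

def Fn (G : Type) : Type := G → ℤ

instance (G : Type) : AddCommGroup (Fn G) := inferInstanceAs (AddCommGroup (G → ℤ))

instance (G : Type) : CoeFun (Fn G) (fun _ => G → ℤ) := ⟨fun f => f⟩

section
variable {G : Type} [AddCommGroup G]

@[ext] theorem Fn.ext {f g : Fn G} (h : ∀ k, f k = g k) : f = g := funext h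

@[simp] theorem Fn.add_apply (f g : Fn G) (k : G) : (f + g) k = f k + g k := rfl
@[simp] theorem Fn.sub_apply (f g : Fn G) (k : G) : (f - g) k = f k - g k := rfl
@[simp] theorem Fn.neg_apply (f : Fn G) (k : G) : (-f) k = -f k := rfl
@[simp] theorem Fn.zero_apply (k : G) : (0 : Fn G) k = 0 := rfl
@[simp] theorem Fn.zsmul_apply (n : ℤ) (f : Fn G) (k : G) : (n • f) k = n * f k := rfl

theorem Fn.sum_apply {ι : Type} (s : Finset ι) (f : ι → Fn G) (k : G) :
    (∑ i ∈ s, f i) k = ∑ i ∈ s, f i k := Finset.sum_apply k s f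

def shiftHom (G : Type) [AddCommGroup G] : Multiplicative G →* Module.End ℤ (Fn G) where
  toFun e :=
    { toFun := fun f k => f (k - e.toAdd)
      map_add' := fun _ _ => rfl
      map_smul' := fun _ _ => rfl }
  map_one' := LinearMap.ext fun f => Fn.ext fun k => congrArg f (sub_zero k)
  map_mul' a b := LinearMap.ext fun f => Fn.ext fun k => congrArg f (sub_sub k a.toAdd b.toAdd).symm

noncomputable instance : Module (RG G) (Fn G) :=
  Module.compHom (Fn G) (AddMonoidAlgebra.lift ℤ (Module.End ℤ (Fn G)) G (shiftHom G)).toRingHom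

/-- the shift by `e` -/
noncomputable def sh (e : G) : RG G := AddMonoidAlgebra.single e 1

theorem single_smul (e : G) (n : ℤ) (f : Fn G) (k : G) :
    ((AddMonoidAlgebra.single e n : RG G) • f) k = n * f (k - e) := by
  change (AddMonoidAlgebra.lift ℤ (Module.End ℤ (Fn G)) G (shiftHom G)
    (AddMonoidAlgebra.single e n) f) k = _
  rw [AddMonoidAlgebra.lift_single]
  rfl

@[simp] theorem sh_smul (e : G) (f : Fn G) (k : G) : (sh e • f) k = f (k - e) := by
  rw [sh, single_smul, one_mul]

theorem sh_add (a b : G) : sh (a + b) = sh a * sh b := by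
  simp [sh, AddMonoidAlgebra.single_mul_single]

theorem sh_zero : sh (0 : G) = 1 := rfl

theorem sh_nsmul (i : ℕ) (e : G) : sh (i • e) = sh e ^ i := by
  induction i with
  | zero => simp [sh_zero]
  | succ i ih => rw [succ_nsmul, sh_add, ih, pow_succ]

theorem intCast_smul' (n : ℤ) (f : Fn G) : ((n : RG G) • f) = n • f := Int.cast_smul_eq_zsmul _ n f

/-- `1 + σ + ... + σ ^ (a - 1)` -/
noncomputable def geo (e : G) (a : ℕ) : RG G := ∑ i ∈ Finset.range a, sh e ^ i

theorem one_sub_sh_nsmul (e : G) (a : ℕ) : 1 - sh (a • e) = geo e a * (1 - sh e) := by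
  rw [sh_nsmul, geo, geom_sum_mul_neg]

theorem geo_one (e : G) : geo e 1 = 1 := by simp [geo]

theorem geo_smul (e : G) (a : ℕ) (f : Fn G) (k : G) :
    (geo e a • f) k = ∑ i ∈ Finset.range a, f (k - i • e) := by
  rw [geo, Finset.sum_smul, Fn.sum_apply]
  exact Finset.sum_congr rfl fun i _ => by rw [← sh_nsmul, sh_smul]

/-- functions vanishing on a half space -/
def Bdd (φ : G →+ ℤ) : Submodule (RG G) (Fn G) where
  carrier := {f | ∃ b, ∀ k, φ k < b → f k = 0}
  zero_mem' := ⟨0, fun _ _ => rfl⟩
  add_mem' := by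
    rintro f g ⟨b, hb⟩ ⟨c, hc⟩
    exact ⟨min b c, fun k hk => by
      simp [hb k (lt_of_lt_of_le hk (min_le_left _ _)), hc k (lt_of_lt_of_le hk (min_le_right _ _))]⟩
  smul_mem' := by
    rintro r f ⟨b, hb⟩
    induction r using AddMonoidAlgebra.induction_linear with
    | zero => exact ⟨0, fun _ _ => by simp⟩
    | add r s hr hs =>
      obtain ⟨c, hc⟩ := hr
      obtain ⟨d, hd⟩ := hs
      exact ⟨min c d, fun k hk => by
        simp [add_smul, hc k (lt_of_lt_of_le hk (min_le_left _ _)),
          hd k (lt_of_lt_of_le hk (min_le_right _ _))]⟩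
    | single e n =>
      exact ⟨b + φ e, fun k hk => by
        rw [single_smul, hb _ (by rw [map_sub]; omega), mul_zero]⟩

theorem cancel_one (φ : G →+ ℤ) {e : G} (he : 0 < φ e) {f : Fn G} (hf : f ∈ Bdd φ)
    (h : (1 - sh e) • f = 0) : f = 0 := by
  obtain ⟨b, hb⟩ := hf
  have h1 : ∀ k, f k = f (k - e) := fun k => by
    have := congrArg (fun g : Fn G => g k) h
    simp only [sub_smul, one_smul, Fn.sub_apply, sh_smul, Fn.zero_apply] at this
    omega
  have h2 : ∀ n : ℕ, ∀ k, φ k < b + n → f k = 0 := by
    intro n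
    induction n with
    | zero => simpa using hb
    | succ n ih => exact fun k hk => by rw [h1, ih _ (by rw [map_sub]; push_cast at hk; omega)]
  ext k
  exact h2 (φ k - b + 1).toNat k (by omega)

theorem cancel (φ : G →+ ℤ) {ι : Type} (s : Finset ι) (e : ι → G) (he : ∀ i ∈ s, 0 < φ (e i))
    {f : Fn G} (hf : f ∈ Bdd φ) (h : (∏ i ∈ s, (1 - sh (e i))) • f = 0) : f = 0 := by
  classical
  induction s using Finset.induction_on with
  | empty => simpa using h
  | insert i s hi ih =>
    rw [Finset.prod_insert hi, mul_smul] at h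
    exact ih (fun j hj => he j (Finset.mem_insert_of_mem hj))
      (cancel_one φ (he i (Finset.mem_insert_self _ _)) (Submodule.smul_mem _ _ hf) h)

/-- the function supported at zero -/
noncomputable def dl (G : Type) [AddCommGroup G] : Fn G := by
  classical exact fun k => if k = 0 then 1 else 0

variable [PartialOrder G] [IsOrderedAddMonoid G]

/-- eventually vanishing functions -/
def Zs (G : Type) [AddCommGroup G] [PartialOrder G] [IsOrderedAddMonoid G] :
    Submodule (RG G) (Fn G) where
  carrier := {f | ∀ᶠ k in atTop, f k = 0}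
  zero_mem' := Eventually.of_forall fun _ => rfl
  add_mem' := fun hf hg => (hf.and hg).mono fun k h => by simp [h.1, h.2]
  smul_mem' := by
    intro r f hf
    induction r using AddMonoidAlgebra.induction_linear with
    | zero => exact Eventually.of_forall fun _ => by simp
    | add r s hr hs => exact (hr.and hs).mono fun k h => by simp [add_smul, h.1, h.2]
    | single e n =>
      have := (tendsto_atTop_add_const_right atTop (-e) tendsto_id).eventually hf
      exact this.mono fun k h => by
        rw [single_smul, sub_eq_add_neg]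
        exact mul_eq_zero_of_right _ h

theorem mem_Zs {f : Fn G} : f ∈ Zs G ↔ ∀ᶠ k in atTop, f k = 0 := Iff.rfl

/-- functions that are eventually an integer combination of shifts of `p` -/
noncomputable def Lat (p : Fn G) : Submodule (RG G) (Fn G) := Zs G ⊔ Submodule.span (RG G) {p}

theorem mem_Lat {p f : Fn G} : f ∈ Lat p ↔ ∃ r : RG G, ∀ᶠ k in atTop, f k = (r • p) k := by
  constructor
  · intro h
    obtain ⟨z, hz, y, hy, rfl⟩ := Submodule.mem_sup.1 h
    obtain ⟨r, rfl⟩ := Submodule.mem_span_singleton.1 hy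
    exact ⟨r, (mem_Zs.1 hz).mono fun k h => by simp [h]⟩
  · rintro ⟨r, h⟩
    refine Submodule.mem_sup.2 ⟨f - r • p, h.mono fun k h => by simp [h], r • p,
      Submodule.mem_span_singleton.2 ⟨r, rfl⟩, by abel⟩

theorem smul_mem_Lat (u : RG G) {p f : Fn G} (h : f ∈ Lat p) : u • f ∈ Lat (u • p) := by
  obtain ⟨z, hz, y, hy, rfl⟩ := Submodule.mem_sup.1 h
  obtain ⟨r, rfl⟩ := Submodule.mem_span_singleton.1 hy
  rw [smul_add, smul_comm u r]
  exact Submodule.add_mem_sup (Submodule.smul_mem _ _ hz)
    (Submodule.smul_mem _ _ (Submodule.mem_span_singleton_self _))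

end

section
variable {S : Type} [Fintype S] [DecidableEq S]

/-- product of one variable functions -/
def prodF (P : S → ℤ → ℤ) : Fn (S → ℤ) := fun k => ∏ b, P b (k b)

def geoZ (a : ℕ) (P : ℤ → ℤ) : ℤ → ℤ := fun k => ∑ i ∈ Finset.range a, P (k - i)

/-- `P` is affine of slope `δ` -/
def Aff (δ : ℤ) (P : ℤ → ℤ) : Prop := ∀ k, P (k + 1) = P k + δ

theorem Aff.sub {δ : ℤ} {P : ℤ → ℤ} (h : Aff δ P) (k i : ℤ) : P (k - i) = P k - i * δ := by
  have h1 : ∀ n : ℕ, ∀ k, P (k + n) = P k + n * δ := by
    intro n
    induction n with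
    | zero => simp
    | succ n ih => intro k; push_cast; rw [← add_assoc, h, ih]; ring
  obtain ⟨n, rfl | rfl⟩ := Int.eq_nat_or_neg i
  · have := h1 n (k - n)
    rw [sub_add_cancel] at this
    omega
  · rw [sub_neg_eq_add, h1]; ring

theorem Aff.geoZ {δ : ℤ} {P : ℤ → ℤ} (h : Aff δ P) (a : ℕ) : Aff (a * δ) (geoZ a P) := by
  intro k
  have : ∀ i ∈ Finset.range a, P (k + 1 - i) = P (k - i) + δ := fun i _ => by
    rw [← h]; congr 1; ring
  simp [EGH.geoZ, Finset.sum_congr rfl this, Finset.sum_add_distrib]

theorem geoZ_one (P : ℤ → ℤ) : geoZ 1 P = P := by ext k; simp [geoZ]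

theorem prodF_update (P : S → ℤ → ℤ) (b : S) (Q : ℤ → ℤ) (k : S → ℤ) :
    prodF (Function.update P b Q) k = Q (k b) * ∏ c ∈ Finset.univ.erase b, P c (k c) := by
  rw [prodF, ← Finset.mul_prod_erase _ _ (Finset.mem_univ b), Function.update_self]
  congr 1
  exact Finset.prod_congr rfl fun c hc => by rw [Function.update_of_ne (by simpa using hc)]

theorem geo_prodF (P : S → ℤ → ℤ) (b : S) (a : ℕ) :
    geo (Pi.single b 1 : S → ℤ) a • prodF P = prodF (Function.update P b (geoZ a (P b))) := by
  ext k
  rw [geo_smul, prodF_update, geoZ, Finset.sum_mul]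
  refine Finset.sum_congr rfl fun i _ => ?_
  conv_lhs => rw [← Function.update_eq_self b P, prodF_update]
  congr 1
  · simp
  · exact Finset.prod_congr rfl fun c hc => by
      have : c ≠ b := by simpa using hc
      simp [this]

theorem geo_prodF' (P : S → ℤ → ℤ) (I : Finset S) (a : ℕ) :
    (∏ b ∈ I, geo (Pi.single b 1 : S → ℤ) a) • prodF P =
      prodF fun b => if b ∈ I then geoZ a (P b) else P b := by
  induction I using Finset.induction_on with
  | empty => simp
  | insert b I hb ih =>
    rw [Finset.prod_insert hb, mul_smul, ih, geo_prodF]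
    congr 1
    ext c : 1
    by_cases h : c = b
    · subst h; simp [hb]
    · simp [h]

theorem lat_option {P : Option S → ℤ → ℤ} {δ : ℤ} (hP : Aff δ (P none))
    {f : Fn (Option S → ℤ)} (hf : f ∈ Lat (prodF P)) :
    ∃ A ∈ Submodule.span (RG (S → ℤ)) {prodF fun b => P (some b)},
    ∃ B ∈ Submodule.span (RG (S → ℤ)) {prodF fun b => P (some b)},
      ∀ᶠ k in atTop, ∀ᶠ j in atTop, f (fun o => o.elim j k) = A k * P none j + B k * δ := by
  obtain ⟨r, hr⟩ := mem_Lat.1 hf
  have h1 : ∃ A ∈ Submodule.span (RG (S → ℤ)) {prodF fun b => P (some b)},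
      ∃ B ∈ Submodule.span (RG (S → ℤ)) {prodF fun b => P (some b)},
      ∀ k j, (r • prodF P) (fun o => o.elim j k) = A k * P none j + B k * δ := by
    clear hr
    induction r using AddMonoidAlgebra.induction_linear with
    | zero => exact ⟨0, zero_mem _, 0, zero_mem _, fun k j => by simp⟩
    | add r s hr hs =>
      obtain ⟨A, hA, B, hB, h⟩ := hr
      obtain ⟨A', hA', B', hB', h'⟩ := hs
      exact ⟨A + A', add_mem hA hA', B + B', add_mem hB hB', fun k j => by
        simp only [add_smul, Fn.add_apply, h, h']; ring⟩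
    | single e n =>
      refine ⟨_, Submodule.smul_mem _ (AddMonoidAlgebra.single (fun b => e (some b)) n)
        (Submodule.mem_span_singleton_self _), _, Submodule.smul_mem _
        (AddMonoidAlgebra.single (fun b => e (some b)) (-(n * e none)))
        (Submodule.mem_span_singleton_self _), fun k j => ?_⟩
      simp only [single_smul, prodF, Fintype.prod_option, Pi.sub_apply, Option.elim, hP.sub]
      ring
  obtain ⟨A, hA, B, hB, h⟩ := h1
  refine ⟨A, hA, B, hB, ?_⟩
  obtain ⟨K, hK⟩ := eventually_atTop.1 hr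
  refine eventually_atTop.2 ⟨fun b => K (some b), fun k hk => eventually_atTop.2 ⟨K none, fun j hj => ?_⟩⟩
  rw [← h, hK]
  rintro (_ | b)
  exacts [hj, hk b]

theorem lat_unit {P : Unit → ℤ → ℤ} {δ : ℤ} (hP : Aff δ (P ()))
    {f : Fn (Unit → ℤ)} (hf : f ∈ Lat (prodF P)) :
    ∃ n n' : ℤ, ∀ᶠ j in atTop, f (fun _ => j) = n * P () j + n' * δ := by
  obtain ⟨r, hr⟩ := mem_Lat.1 hf
  have h1 : ∃ n n' : ℤ, ∀ j, (r • prodF P) (fun _ => j) = n * P () j + n' * δ := by
    clear hr
    induction r using AddMonoidAlgebra.induction_linear with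
    | zero => exact ⟨0, 0, fun j => by simp⟩
    | add r s hr hs =>
      obtain ⟨A, B, h⟩ := hr
      obtain ⟨A', B', h'⟩ := hs
      exact ⟨A + A', B + B', fun j => by simp only [add_smul, Fn.add_apply, h, h']; ring⟩
    | single e n =>
      refine ⟨n, -(n * e ()), fun j => ?_⟩
      simp only [single_smul, prodF, Fintype.prod_unique, Pi.sub_apply, hP.sub]
      ring
  obtain ⟨A, B, h⟩ := h1
  refine ⟨A, B, ?_⟩
  obtain ⟨K, hK⟩ := eventually_atTop.1 hr
  exact eventually_atTop.2 ⟨K (), fun j hj => by rw [← h, hK _ fun _ => hj]⟩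

/-- the Hilbert function of a product of projective lines -/
def base (S : Type) [Fintype S] : Fn (S → ℤ) := prodF fun _ k => max (k + 1) 0

theorem base_eq : (∏ b : S, ((1 - sh (Pi.single b 1 : S → ℤ)) * (1 - sh (Pi.single b 1)))) •
    base S = dl (S → ℤ) := by
  have h1 : ∀ (P : S → ℤ → ℤ) (b : S), (1 - sh (Pi.single b 1 : S → ℤ)) • prodF P =
      prodF (Function.update P b fun k => P b k - P b (k - 1)) := by
    intro P b
    ext k
    rw [sub_smul, one_smul, Fn.sub_apply, sh_smul, prodF_update, sub_mul]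
    conv_lhs => rw [← Function.update_eq_self b P, prodF_update, prodF_update]
    congr 2
    · simp
    · exact Finset.prod_congr rfl fun c hc => by
        have : c ≠ b := by simpa using hc
        simp [this]
  have h2 : ∀ I : Finset S,
      (∏ b ∈ I, ((1 - sh (Pi.single b 1 : S → ℤ)) * (1 - sh (Pi.single b 1)))) • base S =
      prodF fun b k => if b ∈ I then (if k = 0 then 1 else 0) else max (k + 1) 0 := by
    intro I
    induction I using Finset.induction_on with
    | empty => simp [base]
    | insert b I hb ih =>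
      rw [Finset.prod_insert hb, mul_smul, mul_smul, ih, h1, h1, Function.update_idem]
      congr 1
      ext c k
      by_cases h : c = b
      · subst h
        simp only [Function.update_self, hb, if_false, Finset.mem_insert_self, if_true]
        split_ifs <;> omega
      · simp [h]
  rw [h2]
  ext k
  simp only [prodF, Finset.mem_univ, if_true, dl, Finset.prod_ite_zero, Finset.prod_const_one]
  congr 1
  simp [funext_iff]

/-- the total degree -/
def tot (S : Type) [Fintype S] : (S → ℤ) →+ ℤ where
  toFun k := ∑ b, k b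
  map_zero' := by simp
  map_add' a b := by simp [Finset.sum_add_distrib]

theorem tot_single (b : S) : tot S (Pi.single b 1) = 1 := by simp [tot]

theorem base_bdd : base S ∈ Bdd (tot S) := by
  refine ⟨0, fun k hk => ?_⟩
  obtain ⟨b, hb⟩ : ∃ b, k b < 0 := by
    by_contra h
    exact absurd (Finset.sum_nonneg fun b _ => not_lt.1 (not_exists.1 h b)) (not_le.2 hk)
  exact Finset.prod_eq_zero (Finset.mem_univ b) (max_eq_right (by omega))

theorem base_mem : base S ∈ Lat (prodF fun (_ : S) (k : ℤ) => k + 1) :=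
  mem_Lat.2 ⟨1, eventually_atTop.2 ⟨0, fun k hk => by
    rw [one_smul]
    exact Finset.prod_congr rfl fun b _ => by
      have : 0 ≤ k b := hk b
      exact max_eq_left (by omega)⟩⟩

end

end Pool.Agent.EGH
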