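import Pool.Agent.EGH.Fn

/-! Multigraded Hilbert functions of homogeneous ideals. -/

namespace Pool.Agent.EGH

open MvPolynomial Module Filter

set_option linter.unusedSectionVars false

theorem finrank_map_add {D V W : Type} [DivisionRing D] [AddCommGroup V] [Module D V]
    [AddCommGroup W] [Module D W] (f : V →ₗ[D] W) (p : Submodule D V) [Module.Finite D p] :
    finrank D (p.map f) + finrank D (p ⊓ LinearMap.ker f : Submodule D V) = finrank D p := by
  have h := (f.domRestrict p).finrank_range_add_finrank_ker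
  rw [LinearMap.range_domRestrict, LinearMap.ker_domRestrict] at h
  rw [← h]
  congr 1
  rw [← Submodule.map_comap_subtype]
  exact (Submodule.equivMapOfInjective _ p.injective_subtype _).finrank_eq.symm

variable {σ G : Type} [AddCommGroup G] (w : σ → G)

/-- the weights are positive -/
def Posw : Prop := ∃ φ : G →+ ℤ, ∀ v, 0 < φ (w v)

theorem map_weight (φ : G →+ ℤ) (d : σ →₀ ℕ) :
    φ (Finsupp.weight w d) = d.sum fun v n => n * φ (w v) := by
  rw [Finsupp.weight_apply, map_finsuppSum]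
  exact Finsupp.sum_congr fun v _ => by rw [map_nsmul, nsmul_eq_mul]

variable {w}

theorem Posw.finite [Finite σ] (hw : Posw w) (k : G) :
    {d : σ →₀ ℕ | Finsupp.weight w d = k}.Finite := by
  obtain ⟨φ, hφ⟩ := hw
  refine (Finsupp.finite_of_degree_le (σ := σ) (φ k).toNat).subset fun d hd => ?_
  have h1 := map_weight w φ d
  rw [hd] at h1
  have h2 : ((d.degree : ℕ) : ℤ) ≤ φ k := by
    rw [h1, Finsupp.degree_apply, Finsupp.sum]
    push_cast
    exact Finset.sum_le_sum fun v _ => le_mul_of_one_le_right (by positivity) (hφ v)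
  change d.degree ≤ _
  omega

theorem weight_nonneg {φ : G →+ ℤ} (hφ : ∀ v, 0 < φ (w v)) (d : σ →₀ ℕ) :
    0 ≤ φ (Finsupp.weight w d) := by
  rw [map_weight]
  exact Finset.sum_nonneg fun v _ => mul_nonneg (by positivity) (hφ v).le

section
variable {R : Type} [CommRing R]

theorem wc_mul {x : MvPolynomial σ R} {e : G} (hx : x.IsWeightedHomogeneous w e)
    (p : MvPolynomial σ R) (k : G) :
    weightedHomogeneousComponent w k (p * x) = weightedHomogeneousComponent w (k - e) p * x := by
  classical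
  induction p using MvPolynomial.induction_on' with
  | monomial d a =>
    have h1 := isWeightedHomogeneous_monomial w d a rfl
    rw [weightedHomogeneousComponent_of_mem (h1.mul hx), weightedHomogeneousComponent_of_mem h1]
    simp only [sub_eq_iff_eq_add]
    split_ifs <;> simp
  | add p q hp hq => simp only [add_mul, map_add, hp, hq]

theorem mem_of_wc {I : AddSubgroup (MvPolynomial σ R)} {p : MvPolynomial σ R}
    (h : ∀ k, weightedHomogeneousComponent w k p ∈ I) : p ∈ I := by
  rw [← sum_weightedHomogeneousComponent w p,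
    finsum_eq_sum _ (weightedHomogeneousComponent_finsupp p)]
  exact sum_mem fun k _ => h k

variable (w) in
/-- homogeneous ideals -/
def HomI (I : Ideal (MvPolynomial σ R)) : Prop :=
  ∀ k, ∀ p ∈ I, weightedHomogeneousComponent w k p ∈ I

theorem homI_span {Y : Set (MvPolynomial σ R)} (h : ∀ y ∈ Y, ∃ e, y.IsWeightedHomogeneous w e) :
    HomI w (Ideal.span Y) := by
  have : ∀ p ∈ Ideal.span Y, ∀ r k, weightedHomogeneousComponent w k (r * p) ∈ Ideal.span Y := by
    intro p hp
    induction hp using Submodule.span_induction with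
    | mem y hy =>
      obtain ⟨e, he⟩ := h y hy
      exact fun r k => wc_mul he r k ▸ Ideal.mul_mem_left _ _ (Ideal.subset_span hy)
    | zero => simp
    | add p q _ _ hp hq => exact fun r k => by rw [mul_add, map_add]; exact add_mem (hp r k) (hq r k)
    | smul a p _ hp => exact fun r k => by rw [smul_eq_mul, ← mul_assoc]; exact hp _ k
  exact fun k p hp => by simpa using this p hp 1 k

theorem HomI.sup {I J : Ideal (MvPolynomial σ R)} (hI : HomI w I) (hJ : HomI w J) :
    HomI w (I ⊔ J) := by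
  intro k p hp
  obtain ⟨a, ha, b, hb, rfl⟩ := Submodule.mem_sup.1 hp
  rw [map_add]
  exact Submodule.add_mem_sup (hI k a ha) (hJ k b hb)

theorem HomI.sup_one {I : Ideal (MvPolynomial σ R)} (hI : HomI w I) {x : MvPolynomial σ R} {e : G}
    (hx : x.IsWeightedHomogeneous w e) : HomI w (I ⊔ Ideal.span {x}) :=
  hI.sup (homI_span fun _ hy => ⟨e, hy ▸ hx⟩)

theorem mem_col {R : Type} [CommRing R] {I : Ideal R} {y r : R} : r ∈ I.colon {y} ↔ r * y ∈ I :=
  Submodule.mem_colon_singleton

theorem le_col {R : Type} [CommRing R] (I : Ideal R) (y : R) : I ≤ I.colon {y} :=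
  fun _ hr => mem_col.2 (Ideal.mul_mem_right _ _ hr)

theorem HomI.col {I : Ideal (MvPolynomial σ R)} (hI : HomI w I) {x : MvPolynomial σ R} {e : G}
    (hx : x.IsWeightedHomogeneous w e) : HomI w (I.colon {x}) := by
  intro k p hp
  have := hI (k + e) _ (mem_col.1 hp)
  rw [wc_mul hx, add_sub_cancel_right] at this
  exact mem_col.2 this

theorem HomI.exists_hom {I J : Ideal (MvPolynomial σ R)} (hJ : HomI w J) (h : ¬ J ≤ I) :
    ∃ x e, x ∈ J ∧ x ∉ I ∧ x.IsWeightedHomogeneous w e := by
  by_contra hc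
  refine h fun p hp => mem_of_wc (w := w) (I := I.toAddSubgroup) fun k => ?_
  by_contra h1
  exact hc ⟨_, k, hJ k p hp, h1, weightedHomogeneousComponent_isWeightedHomogeneous k p⟩

end

variable {F : Type} [Field F]

theorem Posw.fin [Finite σ] (hw : Posw w) (k : G) :
    Module.Finite F (weightedHomogeneousSubmodule F w k) := by
  rw [weightedHomogeneousSubmodule_eq_finsupp_supported]
  have := (hw.finite k).to_subtype
  exact Module.Finite.of_basis (basisRestrictSupport F {d | Finsupp.weight w d = k})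

variable (w) in
/-- the piece of degree `k` of an ideal -/
noncomputable def pcI (I : Ideal (MvPolynomial σ F)) (k : G) : Submodule F (MvPolynomial σ F) :=
  weightedHomogeneousSubmodule F w k ⊓ I.restrictScalars F

theorem mem_pcI {I : Ideal (MvPolynomial σ F)} {k : G} {p : MvPolynomial σ F} :
    p ∈ pcI w I k ↔ p.IsWeightedHomogeneous w k ∧ p ∈ I := Iff.rfl

theorem Posw.finI [Finite σ] (hw : Posw w) (I : Ideal (MvPolynomial σ F)) (k : G) :
    Module.Finite F (pcI w I k) :=
  have := hw.fin (F := F) k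
  Submodule.finiteDimensional_inf_left _ _

variable (w) in
/-- the Hilbert function of the quotient by an ideal -/
noncomputable def hI (I : Ideal (MvPolynomial σ F)) : Fn G := fun k =>
  (finrank F (weightedHomogeneousSubmodule F w k) : ℤ) - finrank F (pcI w I k)

theorem hI_top : hI w (⊤ : Ideal (MvPolynomial σ F)) = 0 := by
  ext k
  have : pcI w (⊤ : Ideal (MvPolynomial σ F)) k = weightedHomogeneousSubmodule F w k := by
    simp [pcI]
  rw [hI, this, sub_self, Fn.zero_apply]

theorem hI_eq_zero {I : Ideal (MvPolynomial σ F)} {k : G}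
    (h : ∀ d a, Finsupp.weight w d = k → monomial d a ∈ I) : hI w I k = 0 := by
  have : pcI w I k = weightedHomogeneousSubmodule F w k := by
    refine inf_eq_left.2 fun p hp => ?_
    rw [p.as_sum]
    exact sum_mem fun d hd => h d _ (hp (mem_support_iff.1 hd))
  rw [hI, this, sub_self]

theorem hI_bdd {φ : G →+ ℤ} (hφ : ∀ v, 0 < φ (w v)) (I : Ideal (MvPolynomial σ F)) :
    hI w I ∈ Bdd φ :=
  ⟨0, fun _ hk => hI_eq_zero fun d _ hd => absurd (hd ▸ weight_nonneg hφ d) (not_le.2 hk)⟩

theorem hI_step [Finite σ] (hw : Posw w) {I : Ideal (MvPolynomial σ F)} (hI' : HomI w I)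
    {x : MvPolynomial σ F} {e : G} (hx : x.IsWeightedHomogeneous w e) :
    hI w I = hI w (I ⊔ Ideal.span {x}) + sh e • hI w (I.colon {x}) := by
  ext k
  have := hw.fin (F := F) (k - e)
  have := hw.finI (I ⊔ Ideal.span {x}) k
  have h1 := finrank_map_add ((I.restrictScalars F).mkQ ∘ₗ LinearMap.mulRight F x)
    (weightedHomogeneousSubmodule F w (k - e))
  have h2 := finrank_map_add (I.restrictScalars F).mkQ (pcI w (I ⊔ Ideal.span {x}) k)
  have e1 : weightedHomogeneousSubmodule F w (k - e) ⊓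
      LinearMap.ker ((I.restrictScalars F).mkQ ∘ₗ LinearMap.mulRight F x) =
      pcI w (I.colon {x}) (k - e) := by
    ext p
    simp [mem_pcI]
  have e2 : pcI w (I ⊔ Ideal.span {x}) k ⊓ LinearMap.ker (I.restrictScalars F).mkQ =
      pcI w I k := by
    ext p
    simp only [Submodule.mem_inf, mem_pcI, Submodule.ker_mkQ, Submodule.restrictScalars_mem]
    exact ⟨fun h => ⟨h.1.1, h.2⟩, fun h => ⟨⟨h.1, Ideal.mem_sup_left h.2⟩, h.2⟩⟩
  have e3 : (weightedHomogeneousSubmodule F w (k - e)).map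
      ((I.restrictScalars F).mkQ ∘ₗ LinearMap.mulRight F x) =
      (pcI w (I ⊔ Ideal.span {x}) k).map (I.restrictScalars F).mkQ := by
    apply le_antisymm
    · rintro _ ⟨p, hp, rfl⟩
      refine ⟨p * x, ⟨?_, Ideal.mem_sup_right (Ideal.mem_span_singleton'.2 ⟨p, rfl⟩)⟩, rfl⟩
      simpa using IsWeightedHomogeneous.mul hp hx
    · rintro _ ⟨p, ⟨hp, hp'⟩, rfl⟩
      obtain ⟨a, ha, b, hb, rfl⟩ := Submodule.mem_sup.1 hp'
      obtain ⟨r, rfl⟩ := Ideal.mem_span_singleton'.1 hb
      refine ⟨_, weightedHomogeneousComponent_mem w r (k - e), ?_⟩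
      have h3 := weightedHomogeneousComponent_eq_self hp
      rw [map_add, wc_mul hx] at h3
      have h4 : (I.restrictScalars F).mkQ (weightedHomogeneousComponent w k a) = 0 :=
        (Submodule.Quotient.mk_eq_zero _).2 (hI' k a ha)
      rw [← h3, map_add, h4, zero_add]
      rfl
  rw [e1, e3] at h1
  rw [e2] at h2
  simp only [hI, Fn.add_apply, sh_smul]
  omega

theorem hI_inj [Finite σ] (hw : Posw w) {I J : Ideal (MvPolynomial σ F)} (hJ : HomI w J)
    (hle : I ≤ J) (h : hI w I = hI w J) : I = J := by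
  refine le_antisymm hle ?_
  by_contra hc
  obtain ⟨x, e, h1, h2, h3⟩ := hJ.exists_hom hc
  have := hw.finI J e
  have h4 := congrArg (fun f : Fn G => f e) h
  simp only [hI, sub_right_inj, Nat.cast_inj] at h4
  have h5 := Submodule.eq_of_le_of_finrank_eq (S₁ := pcI w I e) (S₂ := pcI w J e)
    (fun p hp => ⟨hp.1, hle hp.2⟩) h4
  exact h2 (h5.ge ⟨h3, h1⟩).2

theorem hI_reg [Finite σ] (hw : Posw w) {I : Ideal (MvPolynomial σ F)} (hI' : HomI w I)
    {x : MvPolynomial σ F} {e : G} (hx : x.IsWeightedHomogeneous w e)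
    (h : ∀ p, p * x ∈ I → p ∈ I) : hI w (I ⊔ Ideal.span {x}) = (1 - sh e) • hI w I := by
  have h1 := hI_step hw hI' hx
  rw [le_antisymm (fun p hp => h p (mem_col.1 hp)) (le_col I x)] at h1
  rw [sub_smul, one_smul, eq_sub_iff_add_eq, ← h1]

theorem devissage [Finite σ] (hw : Posw w) (Λ : Submodule (RG G) (Fn G))
    {I J : Ideal (MvPolynomial σ F)} (hI' : HomI w I) (hJ : HomI w J) (hle : I ≤ J)
    (h : ∀ I' x e, HomI w I' → I ≤ I' → x ∈ J → x.IsWeightedHomogeneous w e →
      hI w (I'.colon {x}) ∈ Λ) : hI w I - hI w J ∈ Λ := by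
  induction I using IsNoetherian.induction with
  | hgt I ih =>
    by_cases hc : J ≤ I
    · simp [le_antisymm hle hc]
    obtain ⟨x, e, h1, h2, h3⟩ := hJ.exists_hom hc
    have h4 := ih (I ⊔ Ideal.span {x})
      (lt_of_le_of_ne le_sup_left fun h => h2 (h ▸ Ideal.mem_sup_right (Ideal.subset_span rfl)))
      (hI'.sup_one h3) (sup_le hle ((Ideal.span_singleton_le_iff_mem _).2 h1))
      fun I' x e a b => h I' x e a (le_sup_left.trans b)
    rw [hI_step hw hI' h3, add_sub_right_comm]
    exact add_mem h4 (Λ.smul_mem _ (h I x e hI' le_rfl h1 h3))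

theorem elim_one [Finite σ] (hw : Posw w) (Λ : Submodule (RG G) (Fn G))
    {𝔟 : Ideal (MvPolynomial σ F)} {x : MvPolynomial σ F} {e : G}
    (hx : x.IsWeightedHomogeneous w e) (h : ∀ I, HomI w I → 𝔟 ≤ I → x ∈ I → hI w I ∈ Λ)
    {I : Ideal (MvPolynomial σ F)} (hI' : HomI w I) (hle : 𝔟 ≤ I) : (1 - sh e) • hI w I ∈ Λ := by
  have h1 := devissage hw Λ hI' (hI'.col hx) (le_col I x) fun I' y d a b c hy =>
    h _ (a.col hy) (hle.trans (b.trans (le_col _ _))) (mem_col.2 (b (mul_comm y x ▸ mem_col.1 c)))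
  have h2 := h _ (hI'.sup_one hx) (hle.trans le_sup_left)
    (Ideal.mem_sup_right (Ideal.subset_span rfl))
  have h3 : (1 - sh e) • hI w I =
      hI w (I ⊔ Ideal.span {x}) - sh e • (hI w I - hI w (I.colon {x})) := by
    rw [sub_smul, one_smul, smul_sub]
    conv_lhs => rw [hI_step hw hI' hx, ← hI_step hw hI' hx]
    nth_rewrite 1 [hI_step hw hI' hx]
    abel
  rw [h3]
  exact sub_mem h2 (Λ.smul_mem _ h1)

theorem elim_many [Finite σ] (hw : Posw w) {ι : Type} (s : Finset ι) (x : ι → MvPolynomial σ F)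
    (e : ι → G) (hx : ∀ i, (x i).IsWeightedHomogeneous w (e i)) (Λ : Submodule (RG G) (Fn G))
    {𝔟 : Ideal (MvPolynomial σ F)} (h : ∀ I, HomI w I → 𝔟 ≤ I → (∀ i ∈ s, x i ∈ I) → hI w I ∈ Λ)
    {I : Ideal (MvPolynomial σ F)} (hI' : HomI w I) (hle : 𝔟 ≤ I) :
    (∏ i ∈ s, (1 - sh (e i))) • hI w I ∈ Λ := by
  classical
  induction s using Finset.induction_on generalizing 𝔟 I with
  | empty => simpa using h I hI' hle (by simp)
  | insert i s hi ih =>
    rw [Finset.prod_insert hi, mul_comm, mul_smul]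
    refine elim_one hw (Λ.comap (LinearMap.lsmul _ _ (∏ i ∈ s, (1 - sh (e i))))) (hx i)
      (𝔟 := 𝔟) (fun J a b c => ?_) hI' hle
    refine ih (𝔟 := 𝔟 ⊔ Ideal.span {x i}) (fun J' a' b' c' => h J' a' (le_sup_left.trans b') ?_) a
      (sup_le b ((Ideal.span_singleton_le_iff_mem _).2 c))
    exact Finset.forall_mem_insert _ _ _ |>.2
      ⟨b' (Ideal.mem_sup_right (Ideal.subset_span rfl)), c'⟩

theorem elim_pow [Finite σ] (hw : Posw w) (Λ : Submodule (RG G) (Fn G))
    {𝔟 : Ideal (MvPolynomial σ F)} {x : MvPolynomial σ F} {e : G}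
    (hx : x.IsWeightedHomogeneous w e) (h : ∀ I, HomI w I → 𝔟 ≤ I → x ∈ I → hI w I ∈ Λ)
    (n : ℕ) {I : Ideal (MvPolynomial σ F)} (hI' : HomI w I) (hle : 𝔟 ≤ I) (hn : x ^ n ∈ I) :
    hI w I ∈ Λ := by
  induction n generalizing I with
  | zero => rw [(Ideal.eq_top_iff_one I).2 (by simpa using hn), hI_top]; exact zero_mem _
  | succ n ih =>
    rw [hI_step hw hI' hx]
    exact add_mem (h _ (hI'.sup_one hx) (hle.trans le_sup_left)
      (Ideal.mem_sup_right (Ideal.subset_span rfl)))
      (Λ.smul_mem _ (ih (hI'.col hx) (hle.trans (le_col _ _)) (mem_col.2 (pow_succ x n ▸ hn))))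

theorem monomial_mem {R : Type} [CommRing R] {I : Ideal (MvPolynomial σ R)} {v : σ} {n : ℕ}
    (h : X v ^ n ∈ I) {d : σ →₀ ℕ} (hd : n ≤ d v) (a : R) : monomial d a ∈ I := by
  have : d = (d - Finsupp.single v n) + Finsupp.single v n :=
    (tsub_add_cancel_of_le (Finsupp.single_le_iff.2 hd)).symm
  rw [this, ← mul_one a, ← monomial_mul, ← X_pow_eq_monomial]
  exact Ideal.mul_mem_left _ _ h

theorem hI_all {I : Ideal (MvPolynomial σ F)} (h : ∀ v, X v ∈ I) :
    hI w I ∈ Submodule.span (RG G) {dl G} := by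
  refine Submodule.mem_span_singleton.2 ⟨(hI w I 0 : ℤ), ?_⟩
  rw [intCast_smul']
  ext k
  by_cases hk : k = 0
  · simp [dl, hk]
  · simp only [dl, hk, Fn.zsmul_apply, if_false, mul_zero]
    refine (hI_eq_zero fun d a hd => ?_).symm
    obtain ⟨v, hv⟩ : ∃ v, d v ≠ 0 := by
      by_contra hc
      obtain rfl : d = 0 := Finsupp.ext fun v => of_not_not (not_exists.1 hc v)
      exact hk (by simpa using hd.symm)
    exact monomial_mem (n := 1) (by simpa using h v) (Nat.pos_of_ne_zero hv) a

end Pool.Agent.EGH
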